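import Mathlib
import Pool.Agent.H438R2.Bridge

set_option autoImplicit false

open Pool.Agent.H438R2

namespace Run7.h363.HD

/-- The integer triples `(p, q, r)` with `p, q > 0` and `|p x_0 + q x_1 + r| < c max(p, q)^(-w)`. -/
def trip (w c : ℝ) (x : Fin 2 → ℝ) : Set (ℤ × ℤ × ℤ) :=
  {t | 0 < t.1 ∧ 0 < t.2.1 ∧
    |(t.1 : ℝ) * x 0 + (t.2.1 : ℝ) * x 1 + (t.2.2 : ℝ)| < c * (max (t.1 : ℝ) (t.2.1 : ℝ)) ^ (-w)}

/-- The set `E(w)`. -/
def E (w : ℝ) : Set (Fin 2 → ℝ) := {x | ∃ c : ℝ, 0 < c ∧ (trip w c x).Infinite}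

/-- The integer triples `(p, q, r)` with `(p, q) ≠ 0` and
`|p x_0 + q x_1 + r| < c max(|p|, |q|)^(-w)`. -/
def tripAll (w c : ℝ) (x : Fin 2 → ℝ) : Set (ℤ × ℤ × ℤ) :=
  {t | (t.1 ≠ 0 ∨ t.2.1 ≠ 0) ∧
    |(t.1 : ℝ) * x 0 + (t.2.1 : ℝ) * x 1 + (t.2.2 : ℝ)| <
      c * (max |(t.1 : ℝ)| |(t.2.1 : ℝ)|) ^ (-w)}

/-- The set `W(w)`: all directions. -/
def W (w : ℝ) : Set (Fin 2 → ℝ) := {x | ∃ c : ℝ, 0 < c ∧ (tripAll w c x).Infinite}

/-- `x ↦ (x_0, -x_1)`. -/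
def g1 (x : Fin 2 → ℝ) : Fin 2 → ℝ := ![x 0, -x 1]
/-- `x ↦ (x_0 - x_1, x_1)`. -/
def g2 (x : Fin 2 → ℝ) : Fin 2 → ℝ := ![x 0 - x 1, x 1]
/-- `x ↦ (x_0, x_1 - x_0)`. -/
def g3 (x : Fin 2 → ℝ) : Fin 2 → ℝ := ![x 0, x 1 - x 0]

theorem W_sub (w : ℝ) : W w ⊆ E w ∪ g1 ⁻¹' E w ∪ g2 ⁻¹' E w ∪ g3 ⁻¹' E w := by
  rintro x ⟨c, hc, hinf⟩
  by_contra hx
  simp only [Set.mem_union, not_or, Set.mem_preimage] at hx
  obtain ⟨⟨⟨h0, h1⟩, h2⟩, h3⟩ := hx
  have fin : ∀ y, y ∉ E w → (trip w c y).Finite := fun y hy => by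
    by_contra h
    exact hy ⟨c, hc, h⟩
  have F0 := fin _ h0
  have F1 := fin _ h1
  have F2 := fin _ h2
  have F3 := fin _ h3
  let a0 : ℤ × ℤ × ℤ → ℤ × ℤ × ℤ := fun t => (-t.1, -t.2.1, -t.2.2)
  let a1 : ℤ × ℤ × ℤ → ℤ × ℤ × ℤ := fun t => (t.1, -t.2.1, t.2.2)
  let b1 : ℤ × ℤ × ℤ → ℤ × ℤ × ℤ := fun t => (-t.1, t.2.1, -t.2.2)
  let a2 : ℤ × ℤ × ℤ → ℤ × ℤ × ℤ := fun t => (t.1, 0, t.2.2)
  let b2 : ℤ × ℤ × ℤ → ℤ × ℤ × ℤ := fun t => (-t.1, 0, -t.2.2)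
  let a3 : ℤ × ℤ × ℤ → ℤ × ℤ × ℤ := fun t => (0, t.2.1, t.2.2)
  let b3 : ℤ × ℤ × ℤ → ℤ × ℤ × ℤ := fun t => (0, -t.2.1, -t.2.2)
  have FF : (trip w c x ∪ a0 '' trip w c x ∪ (a1 '' trip w c (g1 x) ∪ b1 '' trip w c (g1 x)) ∪
      (a2 '' trip w c (g2 x) ∪ b2 '' trip w c (g2 x)) ∪
      (a3 '' trip w c (g3 x) ∪ b3 '' trip w c (g3 x))).Finite :=
    (((F0.union (F0.image _)).union ((F1.image _).union (F1.image _))).union
      ((F2.image _).union (F2.image _))).union ((F3.image _).union (F3.image _))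
  apply hinf
  refine FF.subset ?_
  rintro ⟨p, q, r⟩ ⟨hpq, hlt⟩
  simp only at hpq hlt
  rcases lt_trichotomy p 0 with hp | hp | hp <;> rcases lt_trichotomy q 0 with hq | hq | hq
  · -- `p < 0`, `q < 0`
    refine Or.inl (Or.inl (Or.inl (Or.inr ⟨(-p, -q, -r), ⟨by simp only; omega, by simp only; omega, ?_⟩, ?_⟩)))
    · have hp' : (p : ℝ) < 0 := by exact_mod_cast hp
      have hq' : (q : ℝ) < 0 := by exact_mod_cast hq
      rw [abs_of_neg hp', abs_of_neg hq'] at hlt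
      push_cast
      rw [show -(p : ℝ) * x 0 + -(q : ℝ) * x 1 + -(r : ℝ) = -((p : ℝ) * x 0 + q * x 1 + r) by ring,
        abs_neg]
      exact hlt
    · simp [a0]
  · -- `p < 0`, `q = 0`
    subst hq
    refine Or.inl (Or.inr (Or.inr ⟨(-p, -p, -r), ⟨by simp only; omega, by simp only; omega, ?_⟩, ?_⟩))
    · have hp' : (p : ℝ) < 0 := by exact_mod_cast hp
      rw [abs_of_neg hp'] at hlt
      simp only [Int.cast_zero, abs_zero, zero_mul, add_zero] at hlt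
      rw [max_eq_left (by linarith)] at hlt
      push_cast
      simp only [g2, Matrix.cons_val_zero, Matrix.cons_val_one]
      rw [show -(p : ℝ) * (x 0 - x 1) + -(p : ℝ) * x 1 + -(r : ℝ) = -((p : ℝ) * x 0 + r) by ring,
        abs_neg, max_self]
      exact hlt
    · simp [b2]
  · -- `p < 0`, `q > 0`
    refine Or.inl (Or.inl (Or.inr (Or.inr ⟨(-p, q, -r), ⟨by simp only; omega, by simp only; omega, ?_⟩, ?_⟩)))
    · have hp' : (p : ℝ) < 0 := by exact_mod_cast hp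
      have hq' : (0 : ℝ) < q := by exact_mod_cast hq
      rw [abs_of_neg hp', abs_of_pos hq'] at hlt
      push_cast
      simp only [g1, Matrix.cons_val_zero, Matrix.cons_val_one]
      rw [show -(p : ℝ) * x 0 + (q : ℝ) * -x 1 + -(r : ℝ) = -((p : ℝ) * x 0 + q * x 1 + r) by ring,
        abs_neg]
      exact hlt
    · simp [b1]
  · -- `p = 0`, `q < 0`
    subst hp
    refine Or.inr (Or.inr ⟨(-q, -q, -r), ⟨by simp only; omega, by simp only; omega, ?_⟩, ?_⟩)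
    · have hq' : (q : ℝ) < 0 := by exact_mod_cast hq
      rw [abs_of_neg hq'] at hlt
      simp only [Int.cast_zero, abs_zero, zero_mul, zero_add] at hlt
      rw [max_eq_right (by linarith)] at hlt
      push_cast
      simp only [g3, Matrix.cons_val_zero, Matrix.cons_val_one]
      rw [show -(q : ℝ) * x 0 + -(q : ℝ) * (x 1 - x 0) + -(r : ℝ) = -((q : ℝ) * x 1 + r) by ring,
        abs_neg, max_self]
      exact hlt
    · simp [b3]
  · subst hp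
    subst hq
    simp at hpq
  · -- `p = 0`, `q > 0`
    subst hp
    refine Or.inr (Or.inl ⟨(q, q, r), ⟨by simp only; omega, by simp only; omega, ?_⟩, ?_⟩)
    · have hq' : (0 : ℝ) < q := by exact_mod_cast hq
      rw [abs_of_pos hq'] at hlt
      simp only [Int.cast_zero, abs_zero, zero_mul, zero_add] at hlt
      rw [max_eq_right (by linarith)] at hlt
      simp only [g3, Matrix.cons_val_zero, Matrix.cons_val_one]
      rw [show (q : ℝ) * x 0 + (q : ℝ) * (x 1 - x 0) + (r : ℝ) = (q : ℝ) * x 1 + r by ring, max_self]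
      exact hlt
    · simp [a3]
  · -- `p > 0`, `q < 0`
    refine Or.inl (Or.inl (Or.inr (Or.inl ⟨(p, -q, r), ⟨by simp only; omega, by simp only; omega, ?_⟩, ?_⟩)))
    · have hp' : (0 : ℝ) < p := by exact_mod_cast hp
      have hq' : (q : ℝ) < 0 := by exact_mod_cast hq
      rw [abs_of_pos hp', abs_of_neg hq'] at hlt
      push_cast
      simp only [g1, Matrix.cons_val_zero, Matrix.cons_val_one]
      rw [show (p : ℝ) * x 0 + -(q : ℝ) * -x 1 + (r : ℝ) = (p : ℝ) * x 0 + q * x 1 + r by ring]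
      exact hlt
    · simp [a1]
  · -- `p > 0`, `q = 0`
    subst hq
    refine Or.inl (Or.inr (Or.inl ⟨(p, p, r), ⟨by simp only; omega, by simp only; omega, ?_⟩, ?_⟩))
    · have hp' : (0 : ℝ) < p := by exact_mod_cast hp
      rw [abs_of_pos hp'] at hlt
      simp only [Int.cast_zero, abs_zero, zero_mul, add_zero] at hlt
      rw [max_eq_left (by linarith)] at hlt
      simp only [g2, Matrix.cons_val_zero, Matrix.cons_val_one]
      rw [show (p : ℝ) * (x 0 - x 1) + (p : ℝ) * x 1 + (r : ℝ) = (p : ℝ) * x 0 + r by ring, max_self]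
      exact hlt
    · simp [a2]
  · -- `p > 0`, `q > 0`
    refine Or.inl (Or.inl (Or.inl (Or.inl ⟨hp, hq, ?_⟩)))
    have hp' : (0 : ℝ) < p := by exact_mod_cast hp
    have hq' : (0 : ℝ) < q := by exact_mod_cast hq
    rw [abs_of_pos hp', abs_of_pos hq'] at hlt
    exact hlt

end Run7.h363.HD
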