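import Pool.Agent.Run7.h363.HD.A

set_option autoImplicit false

open Pool.Agent.H438R2

namespace Run7.h363.HD

/-- The linear form with coefficients `a, b, c`. -/
noncomputable def phi (a b c : ℝ) : (Fin (2 + 1) → ℝ) →ₗ[ℝ] ℝ :=
  a • LinearMap.proj 0 + b • LinearMap.proj 1 + c • LinearMap.proj 2

theorem phi_apply (a b c : ℝ) (x : Fin (2 + 1) → ℝ) : phi a b c x = a * x 0 + b * x 1 + c * x 2 := by
  simp [phi]

theorem finrank_ker (a b c : ℝ) (h : ¬ (a = 0 ∧ b = 0 ∧ c = 0)) :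
    Module.finrank ℝ (LinearMap.ker (phi a b c)) = 2 := by
  have hne : phi a b c ≠ 0 := by
    intro h0
    apply h
    refine ⟨?_, ?_, ?_⟩
    · have := phi_apply a b c (Pi.single 0 1)
      rw [h0] at this
      simpa using this.symm
    · have := phi_apply a b c (Pi.single 1 1)
      rw [h0] at this
      simpa using this.symm
    · have := phi_apply a b c (Pi.single 2 1)
      rw [h0] at this
      simpa using this.symm
  have h1 := LinearMap.finrank_range_add_finrank_ker (phi a b c)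
  rw [LinearMap.range_eq_top.2 (LinearMap.surjective hne), finrank_top, Module.finrank_self,
    Module.finrank_fin_fun] at h1
  omega

theorem det2 (B : Matrix (Fin (1 + 1)) (Fin (2 + 1)) ℤ) (f : Fin (1 + 1) → Fin (2 + 1)) :
    maxMinor B f = B 0 (f 0) * B 1 (f 1) - B 0 (f 1) * B 1 (f 0) := by
  unfold maxMinor
  exact Matrix.det_fin_two _

theorem isPl_ker {L : Submodule ℝ (Fin (2 + 1) → ℝ)} {p : (Fin (1 + 1) → Fin (2 + 1)) → ℤ}
    (h : IsPluecker 2 1 L p) :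
    ¬ ((p ![1, 2] : ℝ) = 0 ∧ (-p ![0, 2] : ℝ) = 0 ∧ (p ![0, 1] : ℝ) = 0) ∧
    L = LinearMap.ker (phi (p ![1, 2]) (-p ![0, 2]) (p ![0, 1])) := by
  obtain ⟨f₀, hf₀⟩ := ((isPluecker_iff L p).1 h).exists_ne
  obtain ⟨B, hB, hL, c, hc, hm⟩ := h.minors
  have m01 : B 0 0 * B 1 1 - B 0 1 * B 1 0 = c * p ![0, 1] := by
    rw [← hm, det2]; rfl
  have m02 : B 0 0 * B 1 2 - B 0 2 * B 1 0 = c * p ![0, 2] := by
    rw [← hm, det2]; rfl
  have m12 : B 0 1 * B 1 2 - B 0 2 * B 1 1 = c * p ![1, 2] := by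
    rw [← hm, det2]; rfl
  have hne : ¬ ((p ![1, 2] : ℝ) = 0 ∧ (-p ![0, 2] : ℝ) = 0 ∧ (p ![0, 1] : ℝ) = 0) := by
    rintro ⟨h1, h2, h3⟩
    have h1' : p ![1, 2] = 0 := by exact_mod_cast h1
    have h2' : p ![0, 2] = 0 := by
      have : (p ![0, 2] : ℝ) = 0 := by linarith
      exact_mod_cast this
    have h3' : p ![0, 1] = 0 := by exact_mod_cast h3
    rw [h3', mul_zero] at m01
    rw [h2', mul_zero] at m02
    rw [h1', mul_zero] at m12
    have h4 := hm f₀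
    rw [det2] at h4
    have h5 : c * p f₀ = 0 := by
      rw [← h4]
      generalize f₀ 0 = a
      generalize f₀ 1 = b
      fin_cases a <;> fin_cases b <;> simp <;> linarith
    exact hf₀ ((mul_eq_zero.1 h5).resolve_left hc)
  refine ⟨hne, ?_⟩
  have hcR : (c : ℝ) ≠ 0 := by exact_mod_cast hc
  have m01' : (B 0 0 : ℝ) * B 1 1 - B 0 1 * B 1 0 = c * p ![0, 1] := by exact_mod_cast m01
  have m02' : (B 0 0 : ℝ) * B 1 2 - B 0 2 * B 1 0 = c * p ![0, 2] := by exact_mod_cast m02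
  have m12' : (B 0 1 : ℝ) * B 1 2 - B 0 2 * B 1 1 = c * p ![1, 2] := by exact_mod_cast m12
  have hle : L ≤ LinearMap.ker (phi (p ![1, 2]) (-p ![0, 2]) (p ![0, 1])) := by
    rw [← hL, Submodule.span_le]
    rintro _ ⟨i, rfl⟩
    rw [SetLike.mem_coe, LinearMap.mem_ker, phi_apply]
    apply mul_left_cancel₀ hcR
    rw [mul_zero]
    have hi : i = 0 ∨ i = 1 := by
      fin_cases i
      · exact Or.inl rfl
      · exact Or.inr rfl
    rcases hi with rfl | rfl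
    · linear_combination (-(B 0 0 : ℝ)) * m12' + (B 0 1 : ℝ) * m02' - (B 0 2 : ℝ) * m01'
    · linear_combination (-(B 1 0 : ℝ)) * m12' + (B 1 1 : ℝ) * m02' - (B 1 2 : ℝ) * m01'
  refine Submodule.eq_of_le_of_finrank_eq hle ?_
  rw [finrank_ker _ _ _ hne, ← hL]
  have := finrank_span_eq_card hB
  rw [this, Fintype.card_fin]

theorem ht_ge {p : (Fin (1 + 1) → Fin (2 + 1)) → ℤ} (f : Fin (1 + 1) → Fin (2 + 1)) :
    |(p f : ℝ)| ≤ (maxNorm p : ℝ) := by
  have h1 : (p f).natAbs ≤ maxNorm p := Finset.le_sup (f := fun f => (p f).natAbs) (Finset.mem_univ f)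
  have h2 : ((p f).natAbs : ℝ) = |(p f : ℝ)| := by
    rw [← Int.cast_abs, Int.abs_eq_natAbs, Int.cast_natCast]
  rw [← h2]
  exact_mod_cast h1

theorem est (θ : Fin 2 → ℝ) (a : Fin (2 + 1) → ℝ) (H : ℝ) (hH : ∀ i, |a i| ≤ H)
    (P : Fin (2 + 1) → ℝ) (hP : P ≠ 0) (hperp : a 0 * P 0 + a 1 * P 1 + a 2 * P 2 = 0) :
    |a 0 + a 1 * θ 0 + a 2 * θ 1| ≤ 9 * H * eNorm (hat θ) * projDist (hat θ) P := by
  obtain ⟨i0, _, hi0⟩ := (Finset.univ : Finset (Fin (2 + 1))).exists_max_image (fun i => |P i|)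
    ⟨0, Finset.mem_univ _⟩
  obtain ⟨M, hM⟩ : ∃ M : ℝ, M = |P i0| := ⟨_, rfl⟩
  have hPM : ∀ i, |P i| ≤ M := fun i => hM ▸ hi0 i (Finset.mem_univ i)
  have hM0 : 0 < M := by
    by_contra hcon
    push Not at hcon
    apply hP
    ext i
    exact abs_nonpos_iff.1 ((hPM i).trans hcon)
  have hH0 : 0 ≤ H := (abs_nonneg _).trans (hH 0)
  have hW0 : 0 ≤ wedgeNorm (hat θ) P := Real.sqrt_nonneg _
  have e1 : 1 ≤ eNorm (hat θ) := by
    have := le_eNorm (hat θ) 0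
    rwa [hat_zero, abs_one] at this
  have e3 : eNorm P ≤ 3 * M := by
    have := eNorm_le P M hM0.le hPM
    norm_num at this
    exact this
  have e4 : 0 < eNorm P := lt_of_lt_of_le hM0 (hM ▸ le_eNorm P i0)
  have hw : ∀ i, |hat θ i * P i0 - hat θ i0 * P i| ≤ wedgeNorm (hat θ) P := by
    intro i
    by_cases hi : i = i0
    · subst hi
      rw [sub_self, abs_zero]
      exact hW0
    · exact le_wedgeNorm (hat θ) P i i0 hi
  have hid : (a 0 + a 1 * θ 0 + a 2 * θ 1) * P i0 =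
      a 0 * (hat θ 0 * P i0 - hat θ i0 * P 0) + a 1 * (hat θ 1 * P i0 - hat θ i0 * P 1) +
        a 2 * (hat θ 2 * P i0 - hat θ i0 * P 2) := by
    have h0 : hat θ 0 = 1 := rfl
    have h1 : hat θ 1 = θ 0 := rfl
    have h2 : hat θ 2 = θ 1 := rfl
    rw [h0, h1, h2]
    linear_combination (hat θ i0) * hperp
  have hb : |a 0 + a 1 * θ 0 + a 2 * θ 1| * M ≤ 3 * H * wedgeNorm (hat θ) P := by
    rw [hM, ← abs_mul, hid]
    have t0 : |a 0 * (hat θ 0 * P i0 - hat θ i0 * P 0)| ≤ H * wedgeNorm (hat θ) P := by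
      rw [abs_mul]; exact mul_le_mul (hH 0) (hw 0) (abs_nonneg _) hH0
    have t1 : |a 1 * (hat θ 1 * P i0 - hat θ i0 * P 1)| ≤ H * wedgeNorm (hat θ) P := by
      rw [abs_mul]; exact mul_le_mul (hH 1) (hw 1) (abs_nonneg _) hH0
    have t2 : |a 2 * (hat θ 2 * P i0 - hat θ i0 * P 2)| ≤ H * wedgeNorm (hat θ) P := by
      rw [abs_mul]; exact mul_le_mul (hH 2) (hw 2) (abs_nonneg _) hH0
    have := abs_add_three (a 0 * (hat θ 0 * P i0 - hat θ i0 * P 0))
      (a 1 * (hat θ 1 * P i0 - hat θ i0 * P 1)) (a 2 * (hat θ 2 * P i0 - hat θ i0 * P 2))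
    linarith
  have hwd : wedgeNorm (hat θ) P = projDist (hat θ) P * (eNorm (hat θ) * eNorm P) := by
    unfold projDist
    rw [div_mul_cancel₀]
    positivity
  have hpd : 0 ≤ projDist (hat θ) P := by
    unfold projDist
    positivity
  have h5 : |a 0 + a 1 * θ 0 + a 2 * θ 1| * M ≤
      (9 * H * eNorm (hat θ) * projDist (hat θ) P) * M := by
    refine hb.trans ?_
    rw [hwd]
    have : projDist (hat θ) P * (eNorm (hat θ) * eNorm P) ≤
        projDist (hat θ) P * (eNorm (hat θ) * (3 * M)) := by gcongr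
    nlinarith [mul_nonneg hH0 (mul_nonneg hpd (by positivity : (0:ℝ) ≤ eNorm (hat θ) * M))]
  exact le_of_mul_le_mul_right h5 hM0

theorem est_dist (θ : Fin 2 → ℝ) {L : Submodule ℝ (Fin (2 + 1) → ℝ)}
    {p : (Fin (1 + 1) → Fin (2 + 1)) → ℤ} (h : IsPluecker 2 1 L p) :
    |(p ![1, 2] : ℝ) + (-p ![0, 2] : ℝ) * θ 0 + (p ![0, 1] : ℝ) * θ 1| ≤
      9 * (maxNorm p : ℝ) * eNorm (hat θ) * distTo θ L := by
  obtain ⟨hne, hL⟩ := isPl_ker h
  have hnt : Nonempty {P : Fin (2 + 1) → ℝ // P ∈ L ∧ P ≠ 0} := by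
    have h2 : Module.finrank ℝ L = 2 := by rw [hL]; exact finrank_ker _ _ _ hne
    have : Nontrivial L := Module.nontrivial_of_finrank_pos (R := ℝ) (by omega)
    obtain ⟨x, hx⟩ := exists_ne (0 : L)
    exact ⟨⟨x.1, x.2, fun h0 => hx (Subtype.ext h0)⟩⟩
  have hK : 0 ≤ 9 * (maxNorm p : ℝ) * eNorm (hat θ) := by
    have := eNorm_nonneg (hat θ)
    positivity
  unfold distTo
  rw [Real.mul_iInf_of_nonneg hK]
  refine le_ciInf fun P => ?_
  have hP := hL.le P.2.1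
  rw [LinearMap.mem_ker, phi_apply] at hP
  have hb : ∀ i : Fin (2 + 1), |(![(p ![1, 2] : ℝ), -(p ![0, 2] : ℝ), (p ![0, 1] : ℝ)] : Fin 3 → ℝ) i| ≤
      (maxNorm p : ℝ) := by
    intro i
    fin_cases i
    · exact ht_ge _
    · simp only [Fin.mk_one, Matrix.cons_val_one, Matrix.cons_val_zero, abs_neg]
      exact ht_ge _
    · exact ht_ge _
  have := est θ ![(p ![1, 2] : ℝ), -(p ![0, 2] : ℝ), (p ![0, 1] : ℝ)] (maxNorm p : ℝ) hb P.1 P.2.2
    (by simpa using hP)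
  exact this

end Run7.h363.HD
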