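import Pool.Agent.Run7.h363.HD.B

set_option autoImplicit false

open Pool.Agent.H438R2

namespace Run7.h363.HD

theorem pl_cases {L : Submodule ℝ (Fin (2 + 1) → ℝ)} {p : (Fin (1 + 1) → Fin (2 + 1)) → ℤ}
    (h : IsPluecker 2 1 L p) (f : Fin (1 + 1) → Fin (2 + 1)) :
    p f = 0 ∨ p f = p ![0, 1] ∨ p f = -p ![0, 1] ∨ p f = p ![0, 2] ∨ p f = -p ![0, 2] ∨
      p f = p ![1, 2] ∨ p f = -p ![1, 2] := by
  obtain ⟨B, hB, hL, c, hc, hm⟩ := h.minors
  have m01 : B 0 0 * B 1 1 - B 0 1 * B 1 0 = c * p ![0, 1] := by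
    rw [← hm, det2]; rfl
  have m02 : B 0 0 * B 1 2 - B 0 2 * B 1 0 = c * p ![0, 2] := by
    rw [← hm, det2]; rfl
  have m12 : B 0 1 * B 1 2 - B 0 2 * B 1 1 = c * p ![1, 2] := by
    rw [← hm, det2]; rfl
  have h4 := hm f
  rw [det2] at h4
  generalize p f = X at h4 ⊢
  have key : ∀ a b : Fin 3, B 0 a * B 1 b - B 0 b * B 1 a = c * X →
      X = 0 ∨ X = p ![0, 1] ∨ X = -p ![0, 1] ∨ X = p ![0, 2] ∨ X = -p ![0, 2] ∨
      X = p ![1, 2] ∨ X = -p ![1, 2] := by
    intro a b hab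
    have ha : a = 0 ∨ a = 1 ∨ a = 2 := by
      fin_cases a
      · exact Or.inl rfl
      · exact Or.inr (Or.inl rfl)
      · exact Or.inr (Or.inr rfl)
    have hb : b = 0 ∨ b = 1 ∨ b = 2 := by
      fin_cases b
      · exact Or.inl rfl
      · exact Or.inr (Or.inl rfl)
      · exact Or.inr (Or.inr rfl)
    rcases ha with rfl | rfl | rfl <;> rcases hb with rfl | rfl | rfl
    · exact Or.inl (mul_left_cancel₀ hc (by linear_combination -hab))
    · exact Or.inr (Or.inl (mul_left_cancel₀ hc (by linear_combination -hab + m01)))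
    · exact Or.inr (Or.inr (Or.inr (Or.inl (mul_left_cancel₀ hc (by linear_combination -hab + m02)))))
    · exact Or.inr (Or.inr (Or.inl (mul_left_cancel₀ hc (by linear_combination -hab - m01))))
    · exact Or.inl (mul_left_cancel₀ hc (by linear_combination -hab))
    · exact Or.inr (Or.inr (Or.inr (Or.inr (Or.inr (Or.inl
        (mul_left_cancel₀ hc (by linear_combination -hab + m12)))))))
    · exact Or.inr (Or.inr (Or.inr (Or.inr (Or.inl
        (mul_left_cancel₀ hc (by linear_combination -hab - m02))))))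
    · exact Or.inr (Or.inr (Or.inr (Or.inr (Or.inr (Or.inr
        (mul_left_cancel₀ hc (by linear_combination -hab - m12)))))))
    · exact Or.inl (mul_left_cancel₀ hc (by linear_combination -hab))
  exact key _ _ h4

/-- Large intermediate exponent gives many integer triples. -/
theorem omega_sub_W {w w' : ℝ} (hw : 0 < w) (hww : w < w') :
    {θ : Fin 2 → ℝ | (w' : EReal) ≤ omegaExp 2 1 θ} ⊆ W w := by
  intro θ hθ
  have hθ' : (w : EReal) < omegaExp 2 1 θ := lt_of_lt_of_le (by exact_mod_cast hww) hθ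
  unfold omegaExp at hθ'
  obtain ⟨_, ⟨ω, rfl, hinf⟩, hω⟩ := lt_sSup_iff.1 hθ'
  have hwω : w < ω := by exact_mod_cast hω
  have : Infinite {L : Submodule ℝ (Fin (2 + 1) → ℝ) |
      ∃ p : (Fin (1 + 1) → Fin (2 + 1)) → ℤ, IsPluecker 2 1 L p ∧
      (maxNorm p : ℝ) * distTo θ L ≤ (maxNorm p : ℝ) ^ (-ω)} := hinf.to_subtype
  choose p hp1 hp2 using fun L : {L : Submodule ℝ (Fin (2 + 1) → ℝ) |
      ∃ p : (Fin (1 + 1) → Fin (2 + 1)) → ℤ, IsPluecker 2 1 L p ∧
      (maxNorm p : ℝ) * distTo θ L ≤ (maxNorm p : ℝ) ^ (-ω)} => L.2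
  have hinj : Function.Injective (fun L => ((-p L ![0, 2], p L ![0, 1], p L ![1, 2]) : ℤ × ℤ × ℤ)) := by
    intro L L' hLL
    simp only [Prod.mk.injEq] at hLL
    obtain ⟨h1, h2, h3⟩ := hLL
    have h1' : p L ![0, 2] = p L' ![0, 2] := by omega
    apply Subtype.ext
    rw [(isPl_ker (hp1 L)).2, (isPl_ker (hp1 L')).2, h2, h3, h1']
  have hT := Set.infinite_range_of_injective hinj
  have he : 0 ≤ eNorm (hat θ) := eNorm_nonneg _
  refine ⟨9 * eNorm (hat θ) + 1, by positivity, ?_⟩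
  intro hfin
  apply hT
  refine (hfin.union (Set.toFinite ({(0, 0, 1), (0, 0, -1)} : Set (ℤ × ℤ × ℤ)))).subset ?_
  rintro _ ⟨L, rfl⟩
  by_cases h0 : p L ![0, 2] = 0 ∧ p L ![0, 1] = 0
  · right
    have hu : IsUnit (p L ![1, 2]) := by
      refine (hp1 L).primitive _ fun f => ?_
      rcases pl_cases (hp1 L) f with h | h | h | h | h | h | h <;> rw [h]
      · exact dvd_zero _
      · rw [h0.2]; exact dvd_zero _
      · rw [h0.2]; simp
      · rw [h0.1]; exact dvd_zero _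
      · rw [h0.1]; simp
      · simp
    rcases Int.isUnit_iff.1 hu with h1 | h1
    · left
      simp [h0.1, h0.2, h1]
    · right
      simp [h0.1, h0.2, h1]
  · left
    have hd := est_dist θ (hp1 L)
    have hH := hp2 L
    have g02 := ht_ge (p := p L) ![0, 2]
    have g01 := ht_ge (p := p L) ![0, 1]
    set H : ℝ := (maxNorm (p L) : ℝ) with hHdef
    have hm1 : 1 ≤ max |(p L ![0, 2] : ℝ)| |(p L ![0, 1] : ℝ)| := by
      by_cases h1 : p L ![0, 2] = 0
      · have h2 : p L ![0, 1] ≠ 0 := fun h2 => h0 ⟨h1, h2⟩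
        refine le_max_of_le_right ?_
        have : 1 ≤ |p L ![0, 1]| := Int.one_le_abs h2
        exact_mod_cast this
      · refine le_max_of_le_left ?_
        have : 1 ≤ |p L ![0, 2]| := Int.one_le_abs h1
        exact_mod_cast this
    have hmH : max |(p L ![0, 2] : ℝ)| |(p L ![0, 1] : ℝ)| ≤ H := max_le g02 g01
    refine ⟨?_, ?_⟩
    · by_contra hcon
      push Not at hcon
      apply h0
      simp only at hcon
      exact ⟨by omega, hcon.2⟩
    · simp only
      push_cast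
      rw [abs_neg]
      set m : ℝ := max |(p L ![0, 2] : ℝ)| |(p L ![0, 1] : ℝ)| with hmdef
      have hm0 : 0 < m := by linarith
      have e1 : H ^ (-ω) ≤ m ^ (-ω) :=
        Real.rpow_le_rpow_of_nonpos hm0 hmH (by linarith)
      have e2 : m ^ (-ω) ≤ m ^ (-w) := Real.rpow_le_rpow_of_exponent_le hm1 (by linarith)
      have e3 : 0 < m ^ (-w) := Real.rpow_pos_of_pos hm0 _
      have e4 : |-(p L ![0, 2] : ℝ) * θ 0 + (p L ![0, 1] : ℝ) * θ 1 + (p L ![1, 2] : ℝ)| ≤
          9 * eNorm (hat θ) * (H * distTo θ L.1) := by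
        rw [show -(p L ![0, 2] : ℝ) * θ 0 + (p L ![0, 1] : ℝ) * θ 1 + (p L ![1, 2] : ℝ) =
          (p L ![1, 2] : ℝ) + (-p L ![0, 2] : ℝ) * θ 0 + (p L ![0, 1] : ℝ) * θ 1 by ring]
        refine hd.trans (le_of_eq (by ring))
      calc |-(p L ![0, 2] : ℝ) * θ 0 + (p L ![0, 1] : ℝ) * θ 1 + (p L ![1, 2] : ℝ)|
          ≤ 9 * eNorm (hat θ) * (H * distTo θ L.1) := e4
        _ ≤ 9 * eNorm (hat θ) * m ^ (-w) := by
            have : H * distTo θ L.1 ≤ m ^ (-w) := hH.trans (e1.trans e2)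
            gcongr
        _ < (9 * eNorm (hat θ) + 1) * m ^ (-w) := by nlinarith

end Run7.h363.HD
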