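import Pool.Agent.Run7.h363.HD.C

set_option autoImplicit false

open Pool.Agent.H438R2

namespace Run7.h363.HD

/-- The triple is primitive. -/
def Prim (t : ℤ × ℤ × ℤ) : Prop := ∀ g : ℤ, g ∣ t.1 → g ∣ t.2.1 → g ∣ t.2.2 → IsUnit g

theorem exists_prim (p q r : ℤ) (hp : 0 < p) : ∃ (g : ℕ) (p' q' r' : ℤ), 0 < g ∧
    p = g * p' ∧ q = g * q' ∧ r = g * r' ∧ Prim (p', q', r') := by
  obtain ⟨g, hg⟩ : ∃ g : ℕ, g = Int.gcd p (Int.gcd q r : ℤ) := ⟨_, rfl⟩
  have hg0 : 0 < g := by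
    rw [hg]
    exact Int.gcd_pos_of_ne_zero_left _ hp.ne'
  have d1 : (g : ℤ) ∣ p := by rw [hg]; exact Int.gcd_dvd_left _ _
  have d2 : (g : ℤ) ∣ (Int.gcd q r : ℤ) := by rw [hg]; exact Int.gcd_dvd_right _ _
  have d3 : (g : ℤ) ∣ q := d2.trans (Int.gcd_dvd_left _ _)
  have d4 : (g : ℤ) ∣ r := d2.trans (Int.gcd_dvd_right _ _)
  obtain ⟨p', hp'⟩ := d1
  obtain ⟨q', hq'⟩ := d3
  obtain ⟨r', hr'⟩ := d4
  refine ⟨g, p', q', r', hg0, hp', hq', hr', ?_⟩
  intro d h1 h2 h3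
  simp only at h1 h2 h3
  have e1 : (g : ℤ) * d ∣ p := by rw [hp']; exact mul_dvd_mul_left _ h1
  have e2 : (g : ℤ) * d ∣ q := by rw [hq']; exact mul_dvd_mul_left _ h2
  have e3 : (g : ℤ) * d ∣ r := by rw [hr']; exact mul_dvd_mul_left _ h3
  have e4 : (g : ℤ) * d ∣ (g : ℤ) := by
    have := Int.dvd_coe_gcd e1 (Int.dvd_coe_gcd e2 e3)
    rwa [← hg] at this
  have hgz : (g : ℤ) ≠ 0 := by exact_mod_cast hg0.ne'
  have e5 : (g : ℤ) * d ∣ (g : ℤ) * 1 := by rwa [mul_one]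
  exact isUnit_of_dvd_one ((mul_dvd_mul_iff_left hgz).1 e5)

theorem prim_inf {w c : ℝ} (hw : 0 < w) (hc : 0 < c) (x : Fin 2 → ℝ)
    (hx : ∀ p q r : ℤ, 0 < p → (p : ℝ) * x 0 + (q : ℝ) * x 1 + (r : ℝ) ≠ 0)
    (hT : (trip w c x).Infinite) : {t | t ∈ trip w c x ∧ Prim t}.Infinite := by
  intro hfin
  apply hT
  let F : ℤ × ℤ × ℤ → ℕ := fun t => ⌈c / |(t.1 : ℝ) * x 0 + (t.2.1 : ℝ) * x 1 + (t.2.2 : ℝ)|⌉₊
  have hU : (⋃ t ∈ {t | t ∈ trip w c x ∧ Prim t},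
      (fun g : ℕ => ((g * t.1, g * t.2.1, g * t.2.2) : ℤ × ℤ × ℤ)) '' Set.Iic (F t)).Finite :=
    hfin.biUnion fun t _ => (Set.finite_Iic _).image _
  refine hU.subset ?_
  rintro ⟨p, q, r⟩ ⟨hp, hq, hlt⟩
  simp only at hp hq hlt
  obtain ⟨g, p', q', r', hg, rfl, rfl, rfl, hprim⟩ := exists_prim p q r hp
  have hgz : (0 : ℤ) < g := by exact_mod_cast hg
  have hp' : 0 < p' := by
    by_contra h
    push Not at h
    have := mul_nonpos_of_nonneg_of_nonpos hgz.le h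
    omega
  have hq' : 0 < q' := by
    by_contra h
    push Not at h
    have := mul_nonpos_of_nonneg_of_nonpos hgz.le h
    omega
  have hgR : (1 : ℝ) ≤ g := by exact_mod_cast hg
  have hpR : (1 : ℝ) ≤ p' := by exact_mod_cast hp'
  have hqR : (1 : ℝ) ≤ q' := by exact_mod_cast hq'
  push_cast at hlt
  set δ : ℝ := (p' : ℝ) * x 0 + (q' : ℝ) * x 1 + (r' : ℝ) with hδ
  rw [show (g : ℝ) * p' * x 0 + (g : ℝ) * q' * x 1 + (g : ℝ) * r' = g * δ by rw [hδ]; ring, abs_mul,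
    abs_of_pos (by linarith : (0 : ℝ) < g)] at hlt
  set M : ℝ := max (p' : ℝ) (q' : ℝ) with hM
  have hM1 : 1 ≤ M := le_max_of_le_left hpR
  have hMg : max ((g : ℝ) * p') ((g : ℝ) * q') = g * M := by
    rw [hM, mul_max_of_nonneg _ _ (by linarith)]
  rw [hMg] at hlt
  have hgM : M ≤ g * M := by nlinarith
  have e1 : ((g : ℝ) * M) ^ (-w) ≤ M ^ (-w) :=
    Real.rpow_le_rpow_of_nonpos (by linarith) hgM (by linarith)
  have e2 : M ^ (-w) ≤ 1 := by
    have := Real.rpow_le_rpow_of_exponent_le hM1 (show -w ≤ 0 by linarith)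
    rwa [Real.rpow_zero] at this
  have hδ0 : 0 < |δ| := abs_pos.2 (hx p' q' r' hp')
  have e3 : |δ| ≤ g * |δ| := by nlinarith
  have hmem : ((p', q', r') : ℤ × ℤ × ℤ) ∈ {t | t ∈ trip w c x ∧ Prim t} := by
    refine ⟨⟨hp', hq', ?_⟩, hprim⟩
    simp only
    rw [← hδ, ← hM]
    calc |δ| ≤ g * |δ| := e3
      _ < c * ((g : ℝ) * M) ^ (-w) := hlt
      _ ≤ c * M ^ (-w) := by gcongr
  refine Set.mem_biUnion hmem ⟨g, ?_, rfl⟩
  rw [Set.mem_Iic]
  have h1 : (g : ℝ) ≤ c / |δ| := by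
    rw [le_div_iff₀ hδ0]
    calc (g : ℝ) * |δ| ≤ c * ((g : ℝ) * M) ^ (-w) := hlt.le
      _ ≤ c * 1 := by
        have := e1.trans e2
        gcongr
      _ = c := mul_one _
  exact_mod_cast h1.trans (Nat.le_ceil _)

/-- Rows spanning the plane orthogonal to `(r, p, q)`. -/
def Bm (p q r : ℤ) : Matrix (Fin (1 + 1)) (Fin (2 + 1)) ℤ := !![p, -r, 0; 0, q, -p]

/-- The Plücker coordinates. -/
def pc (p q r : ℤ) (f : Fin (1 + 1) → Fin (2 + 1)) : ℤ :=
  (!![0, q, -p; -q, 0, r; p, -r, 0] : Matrix (Fin (2 + 1)) (Fin (2 + 1)) ℤ) (f 0) (f 1)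

/-- The plane. -/
noncomputable def Lm (p q r : ℤ) : Submodule ℝ (Fin (2 + 1) → ℝ) :=
  Submodule.span ℝ (Set.range fun i => (fun j => (Bm p q r i j : ℝ)))

theorem isPl (p q r : ℤ) (hp : 0 < p) (hprim : Prim (p, q, r)) :
    IsPluecker 2 1 (Lm p q r) (pc p q r) := by
  refine ⟨fun g hg => ?_, Bm p q r, ?_, rfl, p, hp.ne', ?_⟩
  · refine hprim g ?_ ?_ ?_
    · exact hg ![2, 0]
    · exact hg ![0, 1]
    · exact hg ![1, 2]
  · have hpR : (p : ℝ) ≠ 0 := by exact_mod_cast hp.ne'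
    refine linearIndependent_fin2.2 ⟨?_, ?_⟩
    · intro h
      have := congrFun h 2
      simp [Bm] at this
      exact hp.ne' this
    · intro a h
      have := congrFun h 0
      simp [Bm] at this
      exact hp.ne (by exact_mod_cast this)
  · intro f
    rw [det2]
    unfold pc
    generalize f 0 = a
    generalize f 1 = b
    fin_cases a <;> fin_cases b <;> simp [Bm] <;> ring

theorem Lm_ker (p q r : ℤ) (hp : 0 < p) (hprim : Prim (p, q, r)) :
    Lm p q r = LinearMap.ker (phi r p q) := by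
  have h := (isPl_ker (isPl p q r hp hprim)).2
  rw [h]
  have h1 : pc p q r ![1, 2] = r := rfl
  have h2 : pc p q r ![0, 2] = -p := rfl
  have h3 : pc p q r ![0, 1] = q := rfl
  rw [h1, h2, h3]
  push_cast
  rw [neg_neg]

theorem Lm_inj {p q r p' q' r' : ℤ} (hp : 0 < p) (hp' : 0 < p') (h1 : Prim (p, q, r))
    (h2 : Prim (p', q', r')) (h : Lm p q r = Lm p' q' r') : p = p' ∧ q = q' ∧ r = r' := by
  have hk := Lm_ker p q r hp h1
  have m : ∀ i, (fun j => (Bm p' q' r' i j : ℝ)) ∈ LinearMap.ker (phi r p q) := by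
    intro i
    rw [← hk, h]
    exact Submodule.subset_span ⟨i, rfl⟩
  have m0 := m 0
  have m1 := m 1
  rw [LinearMap.mem_ker, phi_apply] at m0 m1
  simp [Bm] at m0 m1
  have a1 : r * p' = p * r' := by
    have : (r : ℝ) * p' = p * r' := by linarith
    exact_mod_cast this
  have a2 : p * q' = q * p' := by
    have : (p : ℝ) * q' = q * p' := by linarith
    exact_mod_cast this
  -- `p` divides `p'`
  have hdvd : ∀ {p q r p' q' r' : ℤ}, 0 < p → Prim (p, q, r) → r * p' = p * r' → p * q' = q * p' →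
      p ∣ p' := by
    intro p q r p' q' r' hp h1 a1 a2
    have b1 : p ∣ p' * (Int.gcd p (Int.gcd q r : ℤ) : ℤ) := by
      have c1 : p ∣ p' * p := Dvd.intro_left _ rfl
      have c2 : p ∣ p' * q := ⟨q', by linarith⟩
      have c3 : p ∣ p' * r := ⟨r', by linarith⟩
      have d2 : p ∣ p' * (Int.gcd q r : ℤ) := by
        rw [Int.gcd_eq_gcd_ab q r, mul_add, ← mul_assoc, ← mul_assoc]
        exact dvd_add (c2.mul_right _) (c3.mul_right _)
      rw [Int.gcd_eq_gcd_ab p (Int.gcd q r : ℤ), mul_add, ← mul_assoc, ← mul_assoc]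
      exact dvd_add (c1.mul_right _) (d2.mul_right _)
    have hu : IsUnit (Int.gcd p (Int.gcd q r : ℤ) : ℤ) := by
      refine h1 _ (Int.gcd_dvd_left _ _) ?_ ?_
      · exact (Int.gcd_dvd_right _ _).trans (Int.gcd_dvd_left _ _)
      · exact (Int.gcd_dvd_right _ _).trans (Int.gcd_dvd_right _ _)
    exact (hu.dvd_mul_right).1 b1
  have e1 : p ∣ p' := hdvd hp h1 a1 a2
  have e2 : p' ∣ p := hdvd (q := q') (r := r') (q' := q) (r' := r) hp' h2 (by linarith) (by linarith)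
  have e3 : p = p' := Int.dvd_antisymm hp.le hp'.le e1 e2
  subst e3
  refine ⟨rfl, ?_, ?_⟩
  · have : p * q' = p * q := by linarith
    exact (mul_left_cancel₀ hp.ne' this).symm
  · have : p * r = p * r' := by linarith
    exact mul_left_cancel₀ hp.ne' this

end Run7.h363.HD
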