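import Pool.Agent.Run7.h363.HD.D

set_option autoImplicit false

open Pool.Agent.H438R2

namespace Run7.h363.HD

/-- The distance to the plane orthogonal to `(r, p, q)`. -/
theorem dist_le (x : Fin 2 → ℝ) (p q r : ℤ) (hp : 0 < p) (hq : 0 < q) (hprim : Prim (p, q, r)) :
    distTo x (Lm p q r) ≤ 6 * (1 + |x 0| + |x 1|) *
      (|(p : ℝ) * x 0 + (q : ℝ) * x 1 + (r : ℝ)| / max (p : ℝ) (q : ℝ)) := by
  have hpR : (0 : ℝ) < p := by exact_mod_cast hp
  have hqR : (0 : ℝ) < q := by exact_mod_cast hq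
  set δ : ℝ := (p : ℝ) * x 0 + (q : ℝ) * x 1 + (r : ℝ) with hδ
  set K : ℝ := 1 + |x 0| + |x 1| with hK
  have hK0 : 0 < K := by positivity
  have hhat : ∀ i, |hat x i| ≤ K := by
    intro i
    fin_cases i
    · simp only [Fin.zero_eta, hat_zero, abs_one]
      rw [hK]; linarith [abs_nonneg (x 0), abs_nonneg (x 1)]
    · change |x 0| ≤ K
      rw [hK]; linarith [abs_nonneg (x 0), abs_nonneg (x 1)]
    · change |x 1| ≤ K
      rw [hK]; linarith [abs_nonneg (x 0), abs_nonneg (x 1)]
  have one_le : ∀ P : Fin (2 + 1) → ℝ, P 0 = 1 → 1 ≤ eNorm P := by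
    intro P h
    have := le_eNorm P 0
    rwa [h, abs_one] at this
  -- the general estimate
  have gen : ∀ (P : Fin (2 + 1) → ℝ) (s : ℝ), P 0 = 1 → P ∈ Lm p q r → 0 ≤ s →
      (∀ i j, |hat x i * P j - hat x j * P i| ≤ 2 * s * K) → distTo x (Lm p q r) ≤ 6 * K * s := by
    intro P s hP0 hP hs hw
    have hPne : P ≠ 0 := fun h => by rw [h] at hP0; simp at hP0
    refine (distTo_le x _ P hP hPne).trans ?_
    have h1 : wedgeNorm (hat x) P ≤ (2 + 1) * (2 * s * K) :=
      wedgeNorm_le (n := 2) (hat x) P (2 * s * K) (by positivity) hw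
    have h2 : 1 ≤ eNorm (hat x) := one_le _ (hat_zero x)
    have h3 : 1 ≤ eNorm P := one_le _ hP0
    have h4 : 1 ≤ eNorm (hat x) * eNorm P := one_le_mul_of_one_le_of_one_le h2 h3
    unfold projDist
    rw [div_le_iff₀ (by linarith)]
    have h5 : 0 ≤ 6 * K * s := by positivity
    nlinarith
  have hker := Lm_ker p q r hp hprim
  rcases le_total (q : ℝ) (p : ℝ) with hqp | hpq
  · rw [max_eq_left hqp]
    refine gen ![1, x 0 - δ / p, x 1] (|δ| / p) rfl ?_ (by positivity) ?_
    · rw [hker, LinearMap.mem_ker, phi_apply]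
      change (r : ℝ) * 1 + p * (x 0 - δ / p) + q * x 1 = 0
      rw [hδ]
      field_simp
      ring
    · have hs : |δ / p| = |δ| / p := by rw [abs_div, abs_of_pos hpR]
      intro i j
      have hi := hhat i
      have hj := hhat j
      have hval : hat x i * (![1, x 0 - δ / p, x 1] : Fin 3 → ℝ) j -
          hat x j * (![1, x 0 - δ / p, x 1] : Fin 3 → ℝ) i =
          -(hat x i * (if j = 1 then δ / p else 0)) + hat x j * (if i = 1 then δ / p else 0) := by
        have h0 : hat x 0 = 1 := rfl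
        have h1 : hat x 1 = x 0 := rfl
        have h2 : hat x 2 = x 1 := rfl
        fin_cases i <;> fin_cases j <;> simp [h0, h1, h2] <;> ring
      rw [hval]
      have b1 : |(if j = 1 then δ / p else 0 : ℝ)| ≤ |δ| / p := by
        split_ifs
        · exact hs.le
        · rw [abs_zero]; positivity
      have b2 : |(if i = 1 then δ / p else 0 : ℝ)| ≤ |δ| / p := by
        split_ifs
        · exact hs.le
        · rw [abs_zero]; positivity
      refine (abs_add_le _ _).trans ?_
      rw [abs_neg, abs_mul, abs_mul]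
      have c1 := mul_le_mul hi b1 (abs_nonneg _) hK0.le
      have c2 := mul_le_mul hj b2 (abs_nonneg _) hK0.le
      linarith
  · rw [max_eq_right hpq]
    refine gen ![1, x 0, x 1 - δ / q] (|δ| / q) rfl ?_ (by positivity) ?_
    · rw [hker, LinearMap.mem_ker, phi_apply]
      change (r : ℝ) * 1 + p * x 0 + q * (x 1 - δ / q) = 0
      rw [hδ]
      field_simp
      ring
    · have hs : |δ / q| = |δ| / q := by rw [abs_div, abs_of_pos hqR]
      intro i j
      have hi := hhat i
      have hj := hhat j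
      have hval : hat x i * (![1, x 0, x 1 - δ / q] : Fin 3 → ℝ) j -
          hat x j * (![1, x 0, x 1 - δ / q] : Fin 3 → ℝ) i =
          -(hat x i * (if j = 2 then δ / q else 0)) + hat x j * (if i = 2 then δ / q else 0) := by
        have h0 : hat x 0 = 1 := rfl
        have h1 : hat x 1 = x 0 := rfl
        have h2 : hat x 2 = x 1 := rfl
        fin_cases i <;> fin_cases j <;> simp [h0, h1, h2] <;> ring
      rw [hval]
      have b1 : |(if j = 2 then δ / q else 0 : ℝ)| ≤ |δ| / q := by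
        split_ifs
        · exact hs.le
        · rw [abs_zero]; positivity
      have b2 : |(if i = 2 then δ / q else 0 : ℝ)| ≤ |δ| / q := by
        split_ifs
        · exact hs.le
        · rw [abs_zero]; positivity
      refine (abs_add_le _ _).trans ?_
      rw [abs_neg, abs_mul, abs_mul]
      have c1 := mul_le_mul hi b1 (abs_nonneg _) hK0.le
      have c2 := mul_le_mul hj b2 (abs_nonneg _) hK0.le
      linarith

/-- The height of the plane. -/
theorem height_bounds (p q r : ℤ) (hp : 0 < p) (hq : 0 < q) (B : ℝ)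
    (h1 : (p : ℝ) ≤ B) (h2 : (q : ℝ) ≤ B) (h3 : |(r : ℝ)| ≤ B) :
    max (p : ℝ) (q : ℝ) ≤ (maxNorm (pc p q r) : ℝ) ∧ (maxNorm (pc p q r) : ℝ) ≤ B := by
  have hpR : (0 : ℝ) < p := by exact_mod_cast hp
  have hqR : (0 : ℝ) < q := by exact_mod_cast hq
  constructor
  · have e1 := ht_ge (p := pc p q r) ![2, 0]
    have e2 := ht_ge (p := pc p q r) ![0, 1]
    have v1 : pc p q r ![2, 0] = p := rfl
    have v2 : pc p q r ![0, 1] = q := rfl
    rw [v1, abs_of_pos hpR] at e1
    rw [v2, abs_of_pos hqR] at e2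
    exact max_le e1 e2
  · obtain ⟨f, -, hf⟩ := Finset.exists_mem_eq_sup (Finset.univ : Finset (Fin (1 + 1) → Fin (2 + 1)))
      ⟨![0, 0], Finset.mem_univ _⟩ (fun f => (pc p q r f).natAbs)
    unfold maxNorm
    rw [hf]
    have h4 : ((pc p q r f).natAbs : ℝ) = |(pc p q r f : ℝ)| := by
      rw [← Int.cast_abs, Int.abs_eq_natAbs, Int.cast_natCast]
    rw [h4]
    have hB : 0 ≤ B := hpR.le.trans h1
    have a1 : |(p : ℝ)| ≤ B := by rwa [abs_of_pos hpR]
    have a2 : |(q : ℝ)| ≤ B := by rwa [abs_of_pos hqR]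
    unfold pc
    generalize f 0 = a
    generalize f 1 = b
    fin_cases a <;> fin_cases b <;> simp [hB, a1, a2, h3]

/-- Points with many integer triples are on a rational line or have a large exponent. -/
theorem le_omega {w c : ℝ} (hw : 0 < w) (hc : 0 < c) (x : Fin 2 → ℝ)
    (hT : {t | t ∈ trip w c x ∧ Prim t}.Infinite) : (w : EReal) ≤ omegaExp 2 1 x := by
  by_contra hcon
  push Not at hcon
  obtain ⟨v, hv1, hv2⟩ := EReal.lt_iff_exists_real_btwn.1 hcon
  have hvw : v < w := by exact_mod_cast hv2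
  have hle : (v : EReal) ≤ omegaExp 2 1 x := by
    unfold omegaExp
    refine le_sSup ⟨v, rfl, ?_⟩
    set K : ℝ := 1 + |x 0| + |x 1| with hK
    have hK1 : 1 ≤ K := by
      rw [hK]; linarith [abs_nonneg (x 0), abs_nonneg (x 1)]
    set K2 : ℝ := K + c with hK2
    have hK2' : 1 ≤ K2 := by linarith
    set C2 : ℝ := 6 * K * K2 * c * K2 ^ w with hC2
    have hC20 : 0 < C2 := by positivity
    -- large heights
    have htend := tendsto_rpow_atTop (show 0 < w - v by linarith)
    obtain ⟨N, hN⟩ := Filter.eventually_atTop.1 (htend.eventually_ge_atTop C2)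
    set N0 : ℝ := max N 1 with hN0
    -- for `t` in the set
    have hr : ∀ t ∈ trip w c x, |(t.2.2 : ℝ)| ≤ K2 * max (t.1 : ℝ) (t.2.1 : ℝ) := by
      rintro ⟨p, q, r⟩ ⟨hp, hq, hlt⟩
      simp only at hp hq hlt ⊢
      have hpR : (1 : ℝ) ≤ p := by exact_mod_cast hp
      have hqR : (1 : ℝ) ≤ q := by exact_mod_cast hq
      set M : ℝ := max (p : ℝ) (q : ℝ) with hM
      have hM1 : 1 ≤ M := le_max_of_le_left hpR
      have e2 : M ^ (-w) ≤ 1 := by
        have := Real.rpow_le_rpow_of_exponent_le hM1 (show -w ≤ 0 by linarith)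
        rwa [Real.rpow_zero] at this
      have e3 : |(p : ℝ) * x 0 + (q : ℝ) * x 1 + (r : ℝ)| ≤ c * M := by
        refine hlt.le.trans ?_
        have : M ^ (-w) ≤ M := e2.trans hM1
        gcongr
      have e4 : |(r : ℝ)| ≤ |(p : ℝ) * x 0 + (q : ℝ) * x 1 + (r : ℝ)| + (p * |x 0| + q * |x 1|) := by
        have h1 : (r : ℝ) = ((p : ℝ) * x 0 + (q : ℝ) * x 1 + (r : ℝ)) - ((p : ℝ) * x 0 + (q : ℝ) * x 1) := by
          ring
        have h2 : |(p : ℝ) * x 0 + (q : ℝ) * x 1| ≤ p * |x 0| + q * |x 1| := by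
          refine (abs_add_le _ _).trans ?_
          rw [abs_mul, abs_mul, abs_of_pos (by linarith : (0 : ℝ) < p),
            abs_of_pos (by linarith : (0 : ℝ) < q)]
        calc |(r : ℝ)| = |((p : ℝ) * x 0 + (q : ℝ) * x 1 + (r : ℝ)) - ((p : ℝ) * x 0 + (q : ℝ) * x 1)| := by
              rw [← h1]
          _ ≤ |(p : ℝ) * x 0 + (q : ℝ) * x 1 + (r : ℝ)| + |(p : ℝ) * x 0 + (q : ℝ) * x 1| := abs_sub _ _
          _ ≤ _ := by linarith
      have e5 : p * |x 0| ≤ M * |x 0| := by
        have : (p : ℝ) ≤ M := le_max_left _ _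
        gcongr
      have e6 : q * |x 1| ≤ M * |x 1| := by
        have : (q : ℝ) ≤ M := le_max_right _ _
        gcongr
      have e7 : K2 * M = c * M + M + M * |x 0| + M * |x 1| := by rw [hK2, hK]; ring
      rw [e7]
      linarith
    -- the triples with a large maximum
    have hT2 : {t | (t ∈ trip w c x ∧ Prim t) ∧ N0 ≤ max (t.1 : ℝ) (t.2.1 : ℝ)}.Infinite := by
      intro hfin
      apply hT
      let R : ℤ := ⌈K2 * N0⌉
      let R1 : ℤ := ⌈N0⌉
      refine (hfin.union ((Set.finite_Icc (0 : ℤ) R1).prod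
        ((Set.finite_Icc (0 : ℤ) R1).prod (Set.finite_Icc (-R) R)))).subset ?_
      rintro ⟨p, q, r⟩ ht
      by_cases hcase : N0 ≤ max (p : ℝ) (q : ℝ)
      · exact Or.inl ⟨ht, hcase⟩
      · right
        push Not at hcase
        have h1 := hr _ ht.1
        simp only at h1
        have hp := ht.1.1
        have hq := ht.1.2.1
        simp only at hp hq
        have p1 : (p : ℝ) ≤ R1 := ((le_max_left _ _).trans hcase.le).trans (Int.le_ceil _)
        have q1 : (q : ℝ) ≤ R1 := ((le_max_right _ _).trans hcase.le).trans (Int.le_ceil _)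
        have r1 : |(r : ℝ)| ≤ R := by
          refine h1.trans (le_trans ?_ (Int.le_ceil _))
          have : 0 ≤ K2 := by linarith
          gcongr
        rw [abs_le] at r1
        refine ⟨⟨hp.le, by exact_mod_cast p1⟩, ⟨hq.le, by exact_mod_cast q1⟩, ?_, ?_⟩
        · exact_mod_cast r1.1
        · exact_mod_cast r1.2
    have hinj : Set.InjOn (fun t : ℤ × ℤ × ℤ => Lm t.1 t.2.1 t.2.2)
        {t | (t ∈ trip w c x ∧ Prim t) ∧ N0 ≤ max (t.1 : ℝ) (t.2.1 : ℝ)} := by
      rintro ⟨p, q, r⟩ ht ⟨p', q', r'⟩ ht' h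
      obtain ⟨e1, e2, e3⟩ := Lm_inj ht.1.1.1 ht'.1.1.1 ht.1.2 ht'.1.2 h
      simp only at e1 e2 e3
      rw [e1, e2, e3]
    refine (hT2.image hinj).mono ?_
    rintro _ ⟨⟨p, q, r⟩, ⟨⟨ht, hprim⟩, hbig⟩, rfl⟩
    have hr' := hr _ ht
    obtain ⟨hp, hq, hlt⟩ := ht
    simp only at hp hq hlt hbig hr' ⊢
    refine ⟨pc p q r, isPl p q r hp hprim, ?_⟩
    have hpR : (1 : ℝ) ≤ p := by exact_mod_cast hp
    have hqR : (1 : ℝ) ≤ q := by exact_mod_cast hq
    have hd := dist_le x p q r hp hq hprim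
    set M : ℝ := max (p : ℝ) (q : ℝ) with hM
    have hM1 : 1 ≤ M := le_max_of_le_left hpR
    have hM0 : 0 < M := by linarith
    have hKM : M ≤ K2 * M := by nlinarith
    obtain ⟨b1, b2⟩ := height_bounds p q r hp hq (K2 * M)
      ((le_max_left _ _).trans hKM) ((le_max_right _ _).trans hKM) hr'
    set H : ℝ := (maxNorm (pc p q r) : ℝ) with hH
    rw [← hM] at b1
    have hH0 : 0 < H := by linarith
    set δ : ℝ := (p : ℝ) * x 0 + (q : ℝ) * x 1 + (r : ℝ) with hδ
    have s1 : H * distTo x (Lm p q r) ≤ 6 * K * K2 * |δ| := by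
      calc H * distTo x (Lm p q r) ≤ H * (6 * K * (|δ| / M)) := by gcongr
        _ ≤ (K2 * M) * (6 * K * (|δ| / M)) := by gcongr
        _ = 6 * K * K2 * |δ| := by field_simp
    have s2 : M ^ (-w) ≤ K2 ^ w * H ^ (-w) := by
      have h1 : H / K2 ≤ M := by
        rw [div_le_iff₀ (by linarith)]
        linarith
      have h2 : 0 < H / K2 := by positivity
      have h3 : M ^ (-w) ≤ (H / K2) ^ (-w) := Real.rpow_le_rpow_of_nonpos h2 h1 (by linarith)
      refine h3.trans (le_of_eq ?_)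
      rw [Real.div_rpow hH0.le (by linarith), Real.rpow_neg (by linarith : (0 : ℝ) ≤ K2)]
      rw [div_inv_eq_mul, mul_comm]
    have s3 : H * distTo x (Lm p q r) ≤ C2 * H ^ (-w) := by
      calc H * distTo x (Lm p q r) ≤ 6 * K * K2 * |δ| := s1
        _ ≤ 6 * K * K2 * (c * M ^ (-w)) := by gcongr
        _ ≤ 6 * K * K2 * (c * (K2 ^ w * H ^ (-w))) := by gcongr
        _ = C2 * H ^ (-w) := by rw [hC2]; ring
    have s4 : C2 ≤ H ^ (w - v) := hN H (((le_max_left _ _).trans hbig).trans b1)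
    calc H * distTo x (Lm p q r) ≤ C2 * H ^ (-w) := s3
      _ ≤ H ^ (w - v) * H ^ (-w) := by
          have : 0 ≤ H ^ (-w) := Real.rpow_nonneg hH0.le _
          gcongr
      _ = H ^ (-v) := by
          rw [← Real.rpow_add hH0]
          congr 1
          ring
  exact absurd (lt_of_lt_of_le hv1 hle) (lt_irrefl _)

end Run7.h363.HD
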