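import Pool.Agent.Run7.h363.HD.F

set_option autoImplicit false

open Pool.Agent.H438R2 Filter Topology
open scoped ENNReal

namespace Run7.h363.HD

/-- `g1` as a linear equivalence. -/
noncomputable def e1 : (Fin 2 → ℝ) ≃L[ℝ] (Fin 2 → ℝ) :=
  LinearEquiv.toContinuousLinearEquiv
    { toFun := g1
      invFun := g1
      map_add' := fun x y => by ext i; fin_cases i <;> simp [g1]; ring
      map_smul' := fun a x => by ext i; fin_cases i <;> simp [g1]
      left_inv := fun x => by ext i; fin_cases i <;> simp [g1]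
      right_inv := fun x => by ext i; fin_cases i <;> simp [g1] }

/-- `g2` as a linear equivalence. -/
noncomputable def e2 : (Fin 2 → ℝ) ≃L[ℝ] (Fin 2 → ℝ) :=
  LinearEquiv.toContinuousLinearEquiv
    { toFun := g2
      invFun := fun x => ![x 0 + x 1, x 1]
      map_add' := fun x y => by ext i; fin_cases i <;> simp [g2]; ring
      map_smul' := fun a x => by ext i; fin_cases i <;> simp [g2]; ring
      left_inv := fun x => by ext i; fin_cases i <;> simp [g2]
      right_inv := fun x => by ext i; fin_cases i <;> simp [g2] }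

/-- `g3` as a linear equivalence. -/
noncomputable def e3 : (Fin 2 → ℝ) ≃L[ℝ] (Fin 2 → ℝ) :=
  LinearEquiv.toContinuousLinearEquiv
    { toFun := g3
      invFun := fun x => ![x 0, x 1 + x 0]
      map_add' := fun x y => by ext i; fin_cases i <;> simp [g3]; ring
      map_smul' := fun a x => by ext i; fin_cases i <;> simp [g3]; ring
      left_inv := fun x => by ext i; fin_cases i <;> simp [g3]
      right_inv := fun x => by ext i; fin_cases i <;> simp [g3] }

theorem dimH_W_le (w : ℝ) : dimH (W w) ≤ dimH (E w) := by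
  refine (dimH_mono (W_sub w)).trans ?_
  have h1 : dimH (g1 ⁻¹' E w) = dimH (E w) := ContinuousLinearEquiv.dimH_preimage e1 (E w)
  have h2 : dimH (g2 ⁻¹' E w) = dimH (E w) := ContinuousLinearEquiv.dimH_preimage e2 (E w)
  have h3 : dimH (g3 ⁻¹' E w) = dimH (E w) := ContinuousLinearEquiv.dimH_preimage e3 (E w)
  rw [dimH_union, dimH_union, dimH_union, h1, h2, h3, max_self, max_self, max_self]

theorem dim_form (w : ℝ) (hw : 2 < w) :
    dimH {θ : Fin 2 → ℝ | (w : EReal) ≤ omegaExp 2 1 θ} = ENNReal.ofReal (1 + 3 / (w + 1)) := by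
  have h := dim_pi 2 1 (by norm_num) w (by norm_num; exact hw)
  rw [h]
  norm_num

theorem lower (w : ℝ) (hw : 2 < w) : ENNReal.ofReal (1 + 3 / (w + 1)) ≤ dimH (E w) := by
  have h1 : ∀ w' : ℝ, w < w' → ENNReal.ofReal (1 + 3 / (w' + 1)) ≤ dimH (E w) := by
    intro w' hw'
    rw [← dim_form w' (by linarith)]
    exact (dimH_mono (omega_sub_W (by linarith) hw')).trans (dimH_W_le w)
  have hc : ContinuousAt (fun w' : ℝ => ENNReal.ofReal (1 + 3 / (w' + 1))) w := by
    refine ENNReal.continuous_ofReal.continuousAt.comp ?_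
    refine continuousAt_const.add (continuousAt_const.div (continuousAt_id.add continuousAt_const) ?_)
    exact (show (0 : ℝ) < w + 1 by linarith).ne'
  have ht : Tendsto (fun w' : ℝ => ENNReal.ofReal (1 + 3 / (w' + 1))) (𝓝[>] w)
      (𝓝 (ENNReal.ofReal (1 + 3 / (w + 1)))) := hc.tendsto.mono_left nhdsWithin_le_nhds
  refine le_of_tendsto ht ?_
  filter_upwards [self_mem_nhdsWithin] with w' hw'
  exact h1 w' hw'

/-- A rational line. -/
def line (t : ℤ × ℤ × ℤ) : Set (Fin 2 → ℝ) :=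
  {x | 0 < t.1 ∧ (t.1 : ℝ) * x 0 + (t.2.1 : ℝ) * x 1 + (t.2.2 : ℝ) = 0}

theorem dim_line (t : ℤ × ℤ × ℤ) : dimH (line t) ≤ 1 := by
  let f : ℝ → Fin 2 → ℝ := fun s => ![-((t.2.1 : ℝ) * s + t.2.2) / t.1, s]
  have hf : ContDiff ℝ 1 f := by
    refine contDiff_pi.2 fun i => ?_
    fin_cases i
    · change ContDiff ℝ 1 fun s : ℝ => -((t.2.1 : ℝ) * s + t.2.2) / t.1
      fun_prop
    · change ContDiff ℝ 1 fun s : ℝ => s
      fun_prop
  have h1 : line t ⊆ Set.range f := by
    rintro x ⟨h0, hx⟩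
    have h0' : (t.1 : ℝ) ≠ 0 := by exact_mod_cast h0.ne'
    refine ⟨x 1, ?_⟩
    ext i
    fin_cases i
    · change -((t.2.1 : ℝ) * x 1 + t.2.2) / t.1 = x 0
      rw [div_eq_iff h0']
      linarith
    · rfl
  refine (dimH_mono h1).trans ?_
  have := hf.dimH_range_le
  simpa using this

theorem E_sub {w : ℝ} (hw : 0 < w) :
    E w ⊆ {θ | (w : EReal) ≤ omegaExp 2 1 θ} ∪ ⋃ t, line t := by
  rintro x ⟨c, hc, hT⟩
  by_cases hx : ∀ p q r : ℤ, 0 < p → (p : ℝ) * x 0 + (q : ℝ) * x 1 + (r : ℝ) ≠ 0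
  · left
    exact le_omega hw hc x (prim_inf hw hc x hx hT)
  · right
    push Not at hx
    obtain ⟨p, q, r, hp, h⟩ := hx
    exact Set.mem_iUnion.2 ⟨(p, q, r), hp, h⟩

theorem upper (w : ℝ) (hw : 2 < w) : dimH (E w) ≤ ENNReal.ofReal (1 + 3 / (w + 1)) := by
  refine (dimH_mono (E_sub (by linarith))).trans ?_
  rw [dimH_union, dim_form w hw]
  refine max_le le_rfl ?_
  rw [dimH_iUnion]
  refine iSup_le fun t => (dim_line t).trans ?_
  rw [← ENNReal.ofReal_one]
  apply ENNReal.ofReal_le_ofReal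
  have : 0 < 3 / (w + 1) := by
    have : 0 < w + 1 := by linarith
    positivity
  linarith

theorem dim_E (w : ℝ) (hw : 2 < w) : dimH (E w) = ENNReal.ofReal (1 + 3 / (w + 1)) :=
  le_antisymm (upper w hw) (lower w hw)

end Run7.h363.HD
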