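import Pool.Agent.Run7.h363.HD.G

set_option autoImplicit false

open Pool.Agent.H438R2 Filter Topology
open scoped ENNReal

namespace Run7.h363.HD

/-- The set with `(p, q)` restricted to the set `C` of directions. -/
def ES (C : Set (ℝ × ℝ)) (w : ℝ) : Set (Fin 2 → ℝ) :=
  {x | ∃ c : ℝ, 0 < c ∧ {t : ℤ × ℤ × ℤ | (((t.1 : ℝ), (t.2.1 : ℝ)) : ℝ × ℝ) ∈ C ∧
    |(t.1 : ℝ) * x 0 + (t.2.1 : ℝ) * x 1 + (t.2.2 : ℝ)| <
      c * (max |(t.1 : ℝ)| |(t.2.1 : ℝ)|) ^ (-w)}.Infinite}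

theorem ES_sub_W (C : Set (ℝ × ℝ)) {w : ℝ} (hw : 0 < w) : ES C w ⊆ W w := by
  rintro x ⟨c, hc, hT⟩
  refine ⟨c, hc, hT.mono ?_⟩
  rintro t ⟨-, ht⟩
  refine ⟨?_, ht⟩
  by_contra hcon
  push Not at hcon
  rw [hcon.1, hcon.2] at ht
  simp only [Int.cast_zero, abs_zero, max_self] at ht
  rw [Real.zero_rpow (by linarith), mul_zero] at ht
  exact absurd ht (not_lt.2 (abs_nonneg _))

/-- The linear map `x ↦ (a · x, b · x)`. -/
noncomputable def eAB (a1 a2 b1 b2 : ℝ) (hd : a1 * b2 - a2 * b1 ≠ 0) :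
    (Fin 2 → ℝ) ≃L[ℝ] (Fin 2 → ℝ) :=
  LinearEquiv.toContinuousLinearEquiv
    { toFun := fun x => ![a1 * x 0 + a2 * x 1, b1 * x 0 + b2 * x 1]
      invFun := fun y => ![(b2 * y 0 - a2 * y 1) / (a1 * b2 - a2 * b1),
        (a1 * y 1 - b1 * y 0) / (a1 * b2 - a2 * b1)]
      map_add' := fun x y => by ext i; fin_cases i <;> simp <;> ring
      map_smul' := fun a x => by ext i; fin_cases i <;> simp <;> ring
      left_inv := fun x => by
        ext i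
        fin_cases i
        · simp
          rw [div_eq_iff hd]
          ring
        · simp
          rw [div_eq_iff hd]
          ring
      right_inv := fun x => by
        ext i
        fin_cases i
        · simp
          rw [← mul_div_assoc, ← mul_div_assoc, ← add_div, div_eq_iff hd]
          ring
        · simp
          rw [← mul_div_assoc, ← mul_div_assoc, ← add_div, div_eq_iff hd]
          ring }

theorem pre_sub (C : Set (ℝ × ℝ)) {w : ℝ} (hw : 0 < w) (a1 a2 b1 b2 : ℤ)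
    (hd : a1 * b2 - a2 * b1 ≠ 0)
    (hC : ∀ p q : ℤ, 0 < p → 0 < q →
      ((((p * a1 + q * b1 : ℤ) : ℝ), ((p * a2 + q * b2 : ℤ) : ℝ)) : ℝ × ℝ) ∈ C) :
    (fun x : Fin 2 → ℝ => (![(a1 : ℝ) * x 0 + a2 * x 1, (b1 : ℝ) * x 0 + b2 * x 1] : Fin 2 → ℝ)) ⁻¹'
      E w ⊆ ES C w := by
  rintro x ⟨c, hc, hT⟩
  set K : ℝ := |(a1 : ℝ)| + |(b1 : ℝ)| + |(a2 : ℝ)| + |(b2 : ℝ)| + 1 with hK
  have hK1 : 1 ≤ K := by
    rw [hK]
    linarith [abs_nonneg (a1 : ℝ), abs_nonneg (b1 : ℝ), abs_nonneg (a2 : ℝ), abs_nonneg (b2 : ℝ)]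
  have hK0 : 0 < K := by linarith
  refine ⟨c * K ^ w, by positivity, ?_⟩
  let g : ℤ × ℤ × ℤ → ℤ × ℤ × ℤ := fun t => (t.1 * a1 + t.2.1 * b1, t.1 * a2 + t.2.1 * b2, t.2.2)
  have hinj : Function.Injective g := by
    rintro ⟨p, q, r⟩ ⟨p', q', r'⟩ h
    simp only [g, Prod.mk.injEq] at h
    obtain ⟨h1, h2, h3⟩ := h
    have e1 : (p - p') * (a1 * b2 - a2 * b1) = 0 := by linear_combination b2 * h1 - b1 * h2
    have e2 : (q - q') * (a1 * b2 - a2 * b1) = 0 := by linear_combination a1 * h2 - a2 * h1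
    have e3 : p - p' = 0 := (mul_eq_zero.1 e1).resolve_right hd
    have e4 : q - q' = 0 := (mul_eq_zero.1 e2).resolve_right hd
    rw [show p = p' by omega, show q = q' by omega, h3]
  refine (hT.image hinj.injOn).mono ?_
  rintro _ ⟨⟨p, q, r⟩, ⟨hp, hq, hlt⟩, rfl⟩
  simp only at hp hq hlt
  refine ⟨hC p q hp hq, ?_⟩
  simp only [g]
  have hpR : (1 : ℝ) ≤ p := by exact_mod_cast hp
  have hqR : (1 : ℝ) ≤ q := by exact_mod_cast hq
  set M : ℝ := max (p : ℝ) (q : ℝ) with hM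
  have hM1 : 1 ≤ M := le_max_of_le_left hpR
  have hpM : (p : ℝ) ≤ M := le_max_left _ _
  have hqM : (q : ℝ) ≤ M := le_max_right _ _
  set M' : ℝ := max |((p * a1 + q * b1 : ℤ) : ℝ)| |((p * a2 + q * b2 : ℤ) : ℝ)| with hM'
  have hM'0 : 0 < M' := by
    by_contra hcon
    push Not at hcon
    have z1 : |((p * a1 + q * b1 : ℤ) : ℝ)| ≤ 0 := (le_max_left _ _).trans hcon
    have z2 : |((p * a2 + q * b2 : ℤ) : ℝ)| ≤ 0 := (le_max_right _ _).trans hcon
    have z1' : p * a1 + q * b1 = 0 := by exact_mod_cast abs_nonpos_iff.1 z1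
    have z2' : p * a2 + q * b2 = 0 := by exact_mod_cast abs_nonpos_iff.1 z2
    have e1 : p * (a1 * b2 - a2 * b1) = 0 := by linear_combination b2 * z1' - b1 * z2'
    rcases mul_eq_zero.1 e1 with h | h
    · omega
    · exact hd h
  have bnd : ∀ u v : ℤ, |(u : ℝ)| + |(v : ℝ)| ≤ K → |((p * u + q * v : ℤ) : ℝ)| ≤ K * M := by
    intro u v huv
    push_cast
    refine (abs_add_le _ _).trans ?_
    rw [abs_mul, abs_mul, abs_of_pos (by linarith : (0 : ℝ) < p), abs_of_pos (by linarith : (0 : ℝ) < q)]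
    have h1 : (p : ℝ) * |(u : ℝ)| ≤ M * |(u : ℝ)| := by gcongr
    have h2 : (q : ℝ) * |(v : ℝ)| ≤ M * |(v : ℝ)| := by gcongr
    have h3 : M * (|(u : ℝ)| + |(v : ℝ)|) ≤ M * K := by gcongr
    linarith
  have hMM : M' ≤ K * M := by
    refine max_le (bnd _ _ ?_) (bnd _ _ ?_)
    · rw [hK]; linarith [abs_nonneg (a2 : ℝ), abs_nonneg (b2 : ℝ)]
    · rw [hK]; linarith [abs_nonneg (a1 : ℝ), abs_nonneg (b1 : ℝ)]
  have s2 : M ^ (-w) ≤ K ^ w * M' ^ (-w) := by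
    have h1 : M' / K ≤ M := by
      rw [div_le_iff₀ hK0]
      linarith
    have h2 : 0 < M' / K := by positivity
    have h3 : M ^ (-w) ≤ (M' / K) ^ (-w) := Real.rpow_le_rpow_of_nonpos h2 h1 (by linarith)
    refine h3.trans (le_of_eq ?_)
    rw [Real.div_rpow hM'0.le hK0.le, Real.rpow_neg hK0.le]
    rw [div_inv_eq_mul, mul_comm]
  have hlt' : |((p * a1 + q * b1 : ℤ) : ℝ) * x 0 + ((p * a2 + q * b2 : ℤ) : ℝ) * x 1 + (r : ℝ)| <
      c * M ^ (-w) := by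
    refine lt_of_eq_of_lt ?_ hlt
    congr 1
    change _ = (p : ℝ) * ((a1 : ℝ) * x 0 + a2 * x 1) + (q : ℝ) * ((b1 : ℝ) * x 0 + b2 * x 1) + (r : ℝ)
    push_cast
    ring
  calc |((p * a1 + q * b1 : ℤ) : ℝ) * x 0 + ((p * a2 + q * b2 : ℤ) : ℝ) * x 1 + (r : ℝ)|
      < c * M ^ (-w) := hlt'
    _ ≤ c * (K ^ w * M' ^ (-w)) := by gcongr
    _ = c * K ^ w * M' ^ (-w) := by ring

/-- Every nonempty open cone contains a lattice cone. -/
theorem exists_ab (C : Set (ℝ × ℝ)) (ho : IsOpen C) (hne : C.Nonempty)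
    (hcone : ∀ s : ℝ, 0 < s → ∀ u ∈ C, s • u ∈ C) : ∃ a1 a2 b1 b2 : ℤ, a1 * b2 - a2 * b1 ≠ 0 ∧
      ∀ p q : ℤ, 0 < p → 0 < q →
        ((((p * a1 + q * b1 : ℤ) : ℝ), ((p * a2 + q * b2 : ℤ) : ℝ)) : ℝ × ℝ) ∈ C := by
  -- a point with nonzero second coordinate
  obtain ⟨u, hu, hu2⟩ : ∃ u ∈ C, u.2 ≠ 0 := by
    obtain ⟨v, hv⟩ := hne
    by_cases hv2 : v.2 = 0
    · obtain ⟨ε, hε, hb⟩ := Metric.isOpen_iff.1 ho v hv
      refine ⟨(v.1, ε / 2), hb ?_, by simp only; linarith⟩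
      rw [Metric.mem_ball, Prod.dist_eq]
      simp only [dist_self]
      rw [hv2, Real.dist_eq, sub_zero, abs_of_pos (by linarith)]
      exact max_lt hε (by linarith)
    · exact ⟨v, hv, hv2⟩
  obtain ⟨ε, hε, hb⟩ := Metric.isOpen_iff.1 ho u hu
  obtain ⟨N, hN⟩ := exists_nat_gt (max (1 / ε) (1 / |u.2|))
  have hN1 : 1 / ε < N := (le_max_left _ _).trans_lt hN
  have hN2 : 1 / |u.2| < N := (le_max_right _ _).trans_lt hN
  have hN0 : (0 : ℝ) < N := lt_trans (by positivity) hN1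
  have hNε : 1 / (N : ℝ) < ε := by
    rw [div_lt_iff₀ hN0]
    rw [div_lt_iff₀ hε] at hN1
    linarith
  have hNu : 1 < N * |u.2| := by
    rw [div_lt_iff₀ (abs_pos.2 hu2)] at hN2
    linarith
  obtain ⟨a1, ha1⟩ : ∃ a : ℤ, a = ⌊(N : ℝ) * u.1⌋ := ⟨_, rfl⟩
  obtain ⟨a2, ha2⟩ : ∃ a : ℤ, a = ⌊(N : ℝ) * u.2⌋ := ⟨_, rfl⟩
  have l1 : (a1 : ℝ) ≤ N * u.1 := by rw [ha1]; exact Int.floor_le _
  have l2 : N * u.1 < (a1 : ℝ) + 1 := by rw [ha1]; exact Int.lt_floor_add_one _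
  have l3 : (a2 : ℝ) ≤ N * u.2 := by rw [ha2]; exact Int.floor_le _
  have l4 : N * u.2 < (a2 : ℝ) + 1 := by rw [ha2]; exact Int.lt_floor_add_one _
  have ha20 : a2 ≠ 0 := by
    intro h
    rw [h] at l3 l4
    simp only [Int.cast_zero, zero_add] at l3 l4
    have : |(N : ℝ) * u.2| < 1 := by
      rw [abs_of_nonneg l3]
      exact l4
    rw [abs_mul, abs_of_pos hN0] at this
    linarith
  refine ⟨a1, a2, a1 + 1, a2, ?_, ?_⟩
  · intro h
    apply ha20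
    linarith [show a1 * a2 - a2 * (a1 + 1) = -a2 by ring]
  · intro p q hp hq
    have hpR : (0 : ℝ) < p := by exact_mod_cast hp
    have hqR : (0 : ℝ) < q := by exact_mod_cast hq
    have hs : 0 < ((p : ℝ) + q) * N := by positivity
    have hmem : ((((p * a1 + q * (a1 + 1) : ℤ) : ℝ) / (((p : ℝ) + q) * N),
        ((p * a2 + q * a2 : ℤ) : ℝ) / (((p : ℝ) + q) * N)) : ℝ × ℝ) ∈ C := by
      apply hb
      rw [Metric.mem_ball, Prod.dist_eq]
      simp only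
      refine max_lt ?_ ?_
      · rw [Real.dist_eq]
        refine lt_of_le_of_lt ?_ hNε
        rw [show ((p * a1 + q * (a1 + 1) : ℤ) : ℝ) / (((p : ℝ) + q) * N) - u.1 =
          ((p * (a1 - N * u.1) + q * (a1 + 1 - N * u.1)) / (((p : ℝ) + q) * N)) by
            push_cast; field_simp; ring]
        rw [abs_div, abs_of_pos hs, div_le_div_iff₀ hs hN0]
        have : |(p : ℝ) * (a1 - N * u.1) + q * (a1 + 1 - N * u.1)| ≤ p + q := by
          rw [abs_le]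
          constructor <;> nlinarith
        nlinarith
      · rw [Real.dist_eq]
        refine lt_of_le_of_lt ?_ hNε
        rw [show ((p * a2 + q * a2 : ℤ) : ℝ) / (((p : ℝ) + q) * N) - u.2 =
          ((p + q) * (a2 - N * u.2)) / (((p : ℝ) + q) * N) by push_cast; field_simp]
        rw [abs_div, abs_of_pos hs, div_le_div_iff₀ hs hN0]
        have : |((p : ℝ) + q) * (a2 - N * u.2)| ≤ p + q := by
          rw [abs_le]
          constructor <;> nlinarith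
        nlinarith
    have := hcone _ hs _ hmem
    rw [Prod.smul_mk, smul_eq_mul, smul_eq_mul, mul_div_cancel₀ _ hs.ne', mul_div_cancel₀ _ hs.ne'] at this
    exact this

theorem dim_ES (C : Set (ℝ × ℝ)) (ho : IsOpen C) (hne : C.Nonempty)
    (hcone : ∀ s : ℝ, 0 < s → ∀ u ∈ C, s • u ∈ C) (w : ℝ) (hw : 2 < w) :
    dimH (ES C w) = ENNReal.ofReal (1 + 3 / (w + 1)) := by
  refine le_antisymm ?_ ?_
  · exact ((dimH_mono (ES_sub_W C (by linarith))).trans (dimH_W_le w)).trans (upper w hw)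
  · obtain ⟨a1, a2, b1, b2, hd, hC⟩ := exists_ab C ho hne hcone
    have hdR : (a1 : ℝ) * b2 - a2 * b1 ≠ 0 := by exact_mod_cast hd
    have h1 := ContinuousLinearEquiv.dimH_preimage (eAB a1 a2 b1 b2 hdR) (E w)
    rw [← dim_E w hw, ← h1]
    exact dimH_mono (pre_sub C (by linarith) a1 a2 b1 b2 hd hC)

end Run7.h363.HD
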